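import Mathlib

open Set Filter

namespace Pool.Agent.H.MP_4ba7b3_gt

/-- D-sequences -/
def IsD (b : ℕ → ℕ) : Prop := b 0 = 1 ∧ ∀ n, 0 < b n ∧ b n ∣ b (n + 1) ∧ b n ≠ b (n + 1)

/-- D-sequences whose consecutive ratios tend to infinity -/
def IsDinf (b : ℕ → ℕ) : Prop := IsD b ∧ Tendsto (fun n => (b (n + 1) : ℝ) / b n) atTop atTop

/-- the linear topology generated by the cosets of the subgroups `b n ℤ` -/
def lam (b : ℕ → ℕ) : TopologicalSpace ℤ :=
  TopologicalSpace.generateFrom {U | ∃ (n : ℕ) (x : ℤ), U = {k | (b n : ℤ) ∣ k - x}}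

/-- uniform convergence on the characters `k ↦ k / c n`, `n ≥ 1` -/
noncomputable def tau (c : ℕ → ℕ) : TopologicalSpace ℤ :=
  TopologicalSpace.induced
    (fun k : ℤ => UniformFun.ofFun fun n : ℕ => (((k : ℝ) / c (n + 1) : ℝ) : UnitAddCircle))
    inferInstance

/-- the coarsest topology finer than all the `tau c` -/
noncomputable def supTop (b : ℕ → ℕ) : TopologicalSpace ℤ :=
  sInf {t | ∃ c, IsDinf c ∧ lam c = lam b ∧ t = tau c}

/-- the character takes a value `k / b n` at `1` -/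
def InH (b : ℕ → ℕ) (χ : ℤ →+ UnitAddCircle) : Prop :=
  ∃ (k : ℤ) (n : ℕ), χ 1 = (((k : ℝ) / b n : ℝ) : UnitAddCircle)

end Pool.Agent.H.MP_4ba7b3_gt
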