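import Mathlib
import Pool.Agent.H.MP_4ba7b3_gt.Defs
import Pool.Agent.H.MP_19adc1_gt.A

set_option autoImplicit false

open Set Filter Topology
open Pool.Agent.H.MP_19adc1_gt

namespace Pool.Agent.H.MP_4ba7b3_gt

noncomputable def uc {I : Type} (h : I → UnitAddCircle) : TopologicalSpace ℤ :=
  TopologicalSpace.induced (zmultiplesHom _ (UniformFun.ofFun h)) inferInstance

lemma uc_grp {I : Type} (h : I → UnitAddCircle) : @IsTopologicalAddGroup ℤ (uc h) _ :=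
  topologicalAddGroup_induced _

lemma uc_mem {I : Type} (h : I → UnitAddCircle) (V : Set ℤ) :
    V ∈ @nhds ℤ (uc h) 0 ↔ ∃ ρ > 0, ∀ y : ℤ, (∀ i, ‖y • h i‖ ≤ ρ) → y ∈ V := by
  rw [uc, nhds_induced, map_zero, ((UniformFun.hasBasis_nhds_zero_of_basis
    Metric.nhds_basis_closedBall).comap _).mem_iff]
  refine exists_congr fun ρ => and_congr_right fun _ => forall_congr' fun y => imp_congr_left ?_
  exact forall_congr' fun i => mem_closedBall_zero_iff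

lemma tau_eq (c : ℕ → ℕ) :
    tau c = uc fun n : ℕ => ((1 / c (n + 1) : ℝ) : UnitAddCircle) := by
  unfold tau uc
  congr 1
  exact funext fun k => funext fun n =>
    (congrArg _ (div_eq_mul_one_div _ _)).trans (smul_coe _ _).symm

lemma hs (χ : ℤ →+ UnitAddCircle) (y : ℤ) : χ y = y • χ 1 := by
  rw [← map_zsmul, smul_eq_mul, mul_one]

lemma uc_cont {I : Type} (h : I → UnitAddCircle) (i : I) (k : ℤ) (χ : ℤ →+ UnitAddCircle)
    (hχ : χ 1 = k • h i) : Continuous[uc h, _] χ := by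
  refine @cont ℤ _ (uc h) (uc_grp h) χ _ ((uc_mem h _).2 ⟨1 / 4 / (‖k‖ + 1), by positivity,
    fun y hy => ?_⟩) fun y hy => hy
  have h1 := (le_div_iff₀ (by positivity)).1 (hy i)
  show ‖χ y‖ ≤ 1 / 4
  rw [hs, hχ, smul_comm]
  refine (norm_zsmul_le _ _).trans ?_
  nlinarith [norm_nonneg (y • h i)]

lemma uc_lqc {I : Type} (h : I → UnitAddCircle) : ∀ W ∈ @nhds ℤ (uc h) 0,
    ∃ A ∈ @nhds ℤ (uc h) 0, A ⊆ W ∧ ∀ x ∉ A, ∃ χ : ℤ →+ UnitAddCircle, Continuous[uc h, _] χ ∧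
      (∀ a ∈ A, ‖χ a‖ ≤ 1 / 4) ∧ ¬ ‖χ x‖ ≤ 1 / 4 := by
  intro W hW
  obtain ⟨ρ, r1, r2⟩ := (uc_mem h W).1 hW
  obtain ⟨k, hk⟩ := exists_pow_lt_of_lt_one r1 (show (1 / 2 : ℝ) < 1 by norm_num)
  have hp : (0 : ℝ) < (1 / 2) ^ k := by positivity
  refine ⟨{y | ∀ n, ∀ j ≤ k, ‖(2 ^ j : ℤ) • y • h n‖ ≤ 1 / 4},
    (uc_mem h _).2 ⟨1 / 4 / 2 ^ k, by positivity, fun y hy n j hj => ?_⟩,
    fun y hy => r2 y fun n => by linarith [dbls _ k (hy n)], fun x hx => ?_⟩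
  · refine (norm_zsmul_le _ _).trans ?_
    have h4 : (2 : ℝ) ^ j ≤ 2 ^ k := pow_le_pow_right₀ one_le_two hj
    have h5 := (le_div_iff₀ (by positivity)).1 (hy n)
    rw [norm_pow, show ‖(2 : ℤ)‖ = 2 by simp [Int.norm_eq_abs]]
    nlinarith [norm_nonneg (y • h n)]
  · simp only [mem_ofPred_eq, not_forall] at hx
    obtain ⟨n, j, hj, hx⟩ := hx
    refine ⟨zmultiplesHom _ ((2 ^ j : ℤ) • h n), uc_cont h n _ _ (one_smul _ _),
      fun a ha => ?_, ?_⟩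
    · rw [zmultiplesHom_apply, smul_comm]
      exact ha n j hj
    · rw [zmultiplesHom_apply, smul_comm]
      exact hx

lemma lam_open {b : ℕ → ℕ} (hb : IsD b) {U : Set ℤ} (hU : @IsOpen ℤ (lam b) U) :
    ∀ x ∈ U, ∃ m, ∀ k, (b m : ℤ) ∣ k - x → k ∈ U := by
  have hm : ∀ n m, n ≤ m → (b n : ℤ) ∣ b m := fun n m h => by
    induction h with
    | refl => rfl
    | step _ ih => exact ih.trans (Int.natCast_dvd_natCast.2 (hb.2 _).2.1)
  induction hU with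
  | basic s hs =>
    obtain ⟨n, z, rfl⟩ := hs
    exact fun x hx => ⟨n, fun k hk => by simpa using dvd_add hk hx⟩
  | univ => exact fun _ _ => ⟨0, fun _ _ => trivial⟩
  | inter s t _ _ h1 h2 =>
    intro x hx
    obtain ⟨n, hn⟩ := h1 x hx.1
    obtain ⟨m, hm'⟩ := h2 x hx.2
    exact ⟨max n m, fun k hk => ⟨hn k ((hm _ _ (le_max_left _ _)).trans hk),
      hm' k ((hm _ _ (le_max_right _ _)).trans hk)⟩⟩
  | sUnion S _ h =>
    rintro x ⟨t, ht, hx⟩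
    exact (h t ht x hx).imp fun m hm k hk => ⟨t, ht, hm k hk⟩

lemma lam_le {b c : ℕ → ℕ} (h : ∀ n, ∃ m, b n ∣ c m) : lam c ≤ lam b := by
  refine le_generateFrom ?_
  rintro _ ⟨n, x, rfl⟩
  obtain ⟨m, hm⟩ := h n
  refine (@isOpen_iff_forall_mem_open ℤ (lam c) _).2 fun y hy => ⟨{k | (c m : ℤ) ∣ k - y},
    fun k hk => ?_, TopologicalSpace.isOpen_generateFrom_of_mem ⟨m, y, rfl⟩, by simp⟩
  simpa using dvd_add ((Int.natCast_dvd_natCast.2 hm).trans hk) hy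

lemma lam_dvd {b c : ℕ → ℕ} (hb : IsD b) (h : lam c = lam b) (n : ℕ) : ∃ m, c n ∣ b m := by
  obtain ⟨m, hm⟩ := lam_open hb (U := {k | (c n : ℤ) ∣ k - 0})
    (h ▸ TopologicalSpace.isOpen_generateFrom_of_mem ⟨n, 0, rfl⟩) 0 (by simp)
  exact ⟨m, Int.natCast_dvd_natCast.1 (by simpa using hm (b m) (by simp))⟩

lemma sup_grp (b : ℕ → ℕ) : @IsTopologicalAddGroup ℤ (supTop b) _ :=
  topologicalAddGroup_sInf (by rintro _ ⟨c, -, -, rfl⟩; exact tau_eq c ▸ uc_grp _)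

lemma sup_le {b c : ℕ → ℕ} (h : IsDinf c) (h' : lam c = lam b) : supTop b ≤ tau c :=
  sInf_le ⟨c, h, h', rfl⟩

lemma blk (G : ℕ → ℕ) (α : ℕ → ℕ → ℕ) (h1 : ∀ j, α j 0 = 1) (h2 : G 0 = 1)
    (h3 : ∀ j r, ∃ q, j + 2 ≤ q ∧ α j (r + 1) = α j r * q)
    (h4 : ∀ j, ∃ q, j + 2 ≤ q ∧ G (j + 1) = G j * q * α (j + 1) (j + 1)) :
    ∃ c, IsDinf c ∧ (∀ n, ∃ j, c n ∣ G j) ∧ ∀ j r, r ≤ j → ∃ n, c n * α j r = G j := by
  choose q q1 q2 using h3
  choose p p1 p2 using h4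
  obtain ⟨s, s0, s1⟩ : ∃ s : ℕ → ℕ × ℕ × ℕ, s 0 = (0, 0, 1) ∧ ∀ n, s (n + 1) =
      if (s n).2.1 = 0 then ((s n).1 + 1, (s n).1 + 1, (s n).2.2 * p (s n).1)
      else ((s n).1, (s n).2.1 - 1, (s n).2.2 * q (s n).1 ((s n).2.1 - 1)) :=
    ⟨fun n => Nat.rec (0, 0, 1) (fun _ x => if x.2.1 = 0 then (x.1 + 1, x.1 + 1, x.2.2 * p x.1)
      else (x.1, x.2.1 - 1, x.2.2 * q x.1 (x.2.1 - 1))) n, rfl, fun _ => rfl⟩
  have a1 : ∀ n, 0 < (s n).2.2 ∧ (s n).2.2 * α (s n).1 (s n).2.1 = G (s n).1 := fun n => by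
    induction n with
    | zero => simp [s0, h1, h2]
    | succ n ih =>
      rw [s1]
      split_ifs with h
      · rw [h, h1, mul_one] at ih
        exact ⟨Nat.mul_pos ih.1 (by linarith [p1 (s n).1]), by rw [p2, ← ih.2]⟩
      · refine ⟨Nat.mul_pos ih.1 (by linarith [q1 (s n).1 ((s n).2.1 - 1)]), ?_⟩
        have := q2 (s n).1 ((s n).2.1 - 1)
        rw [Nat.sub_add_cancel (Nat.pos_of_ne_zero h)] at this
        rw [← ih.2, this]
        ring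
  have a2 : ∀ n, (s n).1 ≤ (s (n + 1)).1 ∧
      ∃ q, (s n).1 + 2 ≤ q ∧ (s (n + 1)).2.2 = (s n).2.2 * q := fun n => by
    rw [s1]
    split_ifs
    · exact ⟨Nat.le_succ _, _, p1 _, rfl⟩
    · exact ⟨le_rfl, _, q1 _ _, rfl⟩
  have a3 : ∀ j, (∃ n, (s n).1 = j ∧ (s n).2.1 = j) → ∀ r, r ≤ j →
      ∃ n, (s n).1 = j ∧ (s n).2.1 = r := fun j hj r hr => by
    induction hr using Nat.decreasingInduction with
    | self => exact hj
    | of_succ k _ ih =>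
      obtain ⟨n, n1, n2⟩ := ih
      exact ⟨n + 1, by rw [s1, if_neg (by omega)]; simp [n1, n2]⟩
  have a4 : ∀ j, ∃ n, (s n).1 = j ∧ (s n).2.1 = j := fun j => by
    induction j with
    | zero => exact ⟨0, by simp [s0]⟩
    | succ j ih =>
      obtain ⟨n, n1, n2⟩ := a3 j ih 0 j.zero_le
      exact ⟨n + 1, by rw [s1, if_pos n2]; simp [n1]⟩
  refine ⟨fun n => (s n).2.2, ⟨⟨by simp [s0], fun n => ?_⟩, ?_⟩,
    fun n => ⟨_, Dvd.intro _ (a1 n).2⟩, fun j r hr => ?_⟩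
  · obtain ⟨-, q, h, h'⟩ := a2 n
    have := (a1 n).1
    exact ⟨this, Dvd.intro _ h'.symm, by dsimp only; nlinarith⟩
  · have a5 : Tendsto (fun n => (s n).1) atTop atTop := tendsto_atTop_atTop_of_monotone
      (monotone_nat_of_le_succ fun n => (a2 n).1) fun j => (a4 j).imp fun n h => h.1.ge
    refine tendsto_atTop_mono (fun n => ?_) (tendsto_natCast_atTop_atTop.comp a5)
    obtain ⟨-, q, h, h'⟩ := a2 n
    have h0 : (0 : ℝ) < (s n).2.2 := by exact_mod_cast (a1 n).1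
    dsimp only
    rw [h', Nat.cast_mul, mul_div_cancel_left₀ _ h0.ne']
    exact Nat.cast_le.2 ((Nat.le_add_right _ 2).trans h)
  · obtain ⟨n, rfl, rfl⟩ := a3 j (a4 j) r hr
    exact ⟨n, (a1 n).2⟩

theorem main1 : ∃ b, IsD b ∧ ∃ χ : ℤ →+ UnitAddCircle, Continuous[supTop b, _] χ ∧
    ¬ InH b χ := by
  let α : ℕ → ℕ → ℕ := fun j r => Nat.casesOn r 1 fun r => 2 ^ r * ((j + 2) + 1) ^ 2 ^ r
  let β : ℕ → ℕ → ℕ := fun j r => Nat.casesOn r 1 fun r => 2 ^ r * (((j + 2) + 1) ^ 2 ^ r - 1)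
  have e0 : ∀ j r, j + 3 ≤ ((j + 2) + 1) ^ 2 ^ r := fun j r => Nat.le_self_pow (by positivity) _
  have e1 : ∀ j r, ∃ q, j + 2 ≤ q ∧ α j (r + 1) = α j r * q := fun j r => by
    rcases r with _ | r
    · exact ⟨j + 3, by omega, by simp [α]⟩
    · exact ⟨2 * ((j + 2) + 1) ^ 2 ^ r, by linarith [e0 j r], by simp only [α]; ring⟩
  have e2 : ∀ j r, ∃ q, j + 2 ≤ q ∧ β j (r + 1) = β j r * q := fun j r => by
    rcases r with _ | r
    · exact ⟨j + 2, le_rfl, by simp [β]⟩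
    · refine ⟨2 * (((j + 2) + 1) ^ 2 ^ r + 1), by linarith [e0 j r], ?_⟩
      simp only [β]
      rw [pow_succ 2 r, pow_mul, ← one_pow 2, Nat.sq_sub_sq, one_pow]
      ring
  have e3 : ∀ j r, α j (r + 1) = β j (r + 1) + 2 ^ r := fun j r => by
    simp only [α, β]
    rw [← mul_add_one, Nat.sub_add_cancel (by linarith [e0 j r])]
  have e4 : ∀ j r, 0 < β j r ∧ 0 < α j r := fun j r => by
    rcases r with _ | r
    · exact ⟨one_pos, one_pos⟩
    · have := e0 j r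
      exact ⟨Nat.mul_pos (by positivity) (by omega), Nat.mul_pos (by positivity) (by omega)⟩
  have e5 : ∀ j, α j 0 = 1 := fun _ => rfl
  have e6 : ∀ j, β j 0 = 1 := fun _ => rfl
  clear_value α β
  obtain ⟨G, g0, g1⟩ : ∃ G : ℕ → ℕ, G 0 = 1 ∧
      ∀ j, G (j + 1) = G j * ((j + 4) * β (j + 1) (j + 1) * α (j + 1) (j + 1)) :=
    ⟨fun j => Nat.rec 1 (fun j g => g * ((j + 4) * β (j + 1) (j + 1) * α (j + 1) (j + 1))) j,
      rfl, fun _ => rfl⟩
  obtain ⟨c, c1, c2, c3⟩ := blk G α e5 g0 e1 fun j => ⟨(j + 4) * β (j + 1) (j + 1),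
    by nlinarith [(e4 (j + 1) (j + 1)).1], by rw [g1]; ring⟩
  obtain ⟨d, d1, d2, d3⟩ := blk G β e6 g0 e2 fun j => ⟨(j + 4) * α (j + 1) (j + 1),
    by nlinarith [(e4 (j + 1) (j + 1)).2], by rw [g1]; ring⟩
  have g2 : ∀ j, 4 * G j ≤ G (j + 1) := fun j => by
    rw [g1, mul_comm]
    refine Nat.mul_le_mul_left _ ?_
    nlinarith [Nat.mul_pos (e4 (j + 1) (j + 1)).1 (e4 (j + 1) (j + 1)).2]
  have g3 : ∀ m i, G m ∣ G (m + i) ∧ 4 * 2 ^ i * G m ≤ G (m + i + 1) := fun m i => by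
    induction i with
    | zero => exact ⟨dvd_rfl, by simpa using g2 m⟩
    | succ i ih =>
      exact ⟨ih.1.trans (Dvd.intro _ (g1 _).symm), by
        have := g2 (m + i + 1); rw [pow_succ, ← add_assoc]; nlinarith [ih.2]⟩
  have g4 : ∀ j, (0 : ℝ) < G j := fun j => by
    induction j with
    | zero => simp [g0]
    | succ j ih =>
      have : (4 : ℝ) * G j ≤ G (j + 1) := by exact_mod_cast g2 j
      linarith
  have g5 : ∀ m i, (G m : ℝ) * (1 / G (m + i + 1)) ≤ 1 / 4 * (1 / 2) ^ i := fun m i => by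
    have : (4 : ℝ) * 2 ^ i * G m ≤ G (m + i + 1) := by exact_mod_cast (g3 m i).2
    rw [mul_one_div, div_le_iff₀ (g4 _), one_div_pow]
    have h2 : (0 : ℝ) < 2 ^ i := by positivity
    calc (G m : ℝ) = 1 / 4 * (1 / 2 ^ i) * (4 * 2 ^ i * G m) := by field_simp
      _ ≤ _ := by gcongr
  have sm : Summable fun j => 1 / (G (j + 2) : ℝ) := by
    refine Summable.of_nonneg_of_le (fun j => (one_div_pos.2 (g4 _)).le) (fun j => ?_)
      (summable_geometric_two.mul_left (1 / 4))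
    have h1 := g5 1 j
    have h2 : (4 : ℝ) * G 0 ≤ G 1 := by exact_mod_cast g2 0
    rw [show 1 + j + 1 = j + 2 by ring] at h1
    rw [g0, Nat.cast_one] at h2
    nlinarith [one_div_pos.2 (g4 (j + 2))]
  have hl : lam d = lam c := le_antisymm
    (lam_le fun n => by
      obtain ⟨j, hj⟩ := c2 n
      obtain ⟨m, hm⟩ := d3 j 0 j.zero_le
      exact ⟨m, by rwa [← hm, e6, mul_one] at hj⟩)
    (lam_le fun n => by
      obtain ⟨j, hj⟩ := d2 n
      obtain ⟨m, hm⟩ := c3 j 0 j.zero_le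
      exact ⟨m, by rwa [← hm, e5, mul_one] at hj⟩)
  have key : ∀ (c : ℕ → ℕ) (y : ℤ), c 0 = 1 →
      (∀ n, ‖y • ((1 / c (n + 1) : ℝ) : UnitAddCircle)‖ ≤ 1 / 8) → ∀ n a j, c n * a = G j →
        ‖((y * (a / G j) : ℝ) : UnitAddCircle)‖ ≤ 1 / 8 := fun c y h0 h n a j e => by
    have h1 : (c n : ℝ) * a = G j := by exact_mod_cast e
    have h2 := g4 j
    rw [← h1] at h2 ⊢
    have h3 : (a : ℝ) ≠ 0 := by rintro h; simp [h] at h2
    rw [show (a : ℝ) / (c n * a) = 1 / c n by field_simp, ← smul_coe]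
    rcases n with _ | n
    · rw [h0, Nat.cast_one, div_one, AddCircle.coe_period]
      norm_num
    · exact h n
  refine ⟨c, c1.1, zmultiplesHom _ ((∑' j, 1 / (G (j + 2) : ℝ) : ℝ) : UnitAddCircle), ?_, ?_⟩
  · refine @cont ℤ _ (supTop c) (sup_grp c) _ _ (inter_mem
      (_root_.nhds_mono (sup_le c1 rfl) (tau_eq c ▸ (uc_mem _ {y | ∀ n,
        ‖y • ((1 / c (n + 1) : ℝ) : UnitAddCircle)‖ ≤ 1 / 8}).2 ⟨_, by norm_num, fun _ h => h⟩))
      (_root_.nhds_mono (sup_le d1 hl) (tau_eq d ▸ (uc_mem _ {y | ∀ n,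
        ‖y • ((1 / d (n + 1) : ℝ) : UnitAddCircle)‖ ≤ 1 / 8}).2 ⟨_, by norm_num, fun _ h => h⟩)))
      fun y hy => ?_
    have h1 := ((sm.hasSum.mul_left (y : ℝ)).map (QuotientAddGroup.mk' (AddSubgroup.zmultiples
      (1 : ℝ))) (AddCircle.continuous_mk' 1)).norm_le_of_bounded
      (hasSum_geometric_two.mul_left (1 / 8)) fun j => by
        have h2 := dbls ((y * (1 / G (j + 2)) : ℝ) : UnitAddCircle) (j + 1) fun r hr => by
          obtain ⟨n, hn⟩ := c3 (j + 2) (r + 1) (by omega)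
          obtain ⟨m, hm⟩ := d3 (j + 2) (r + 1) (by omega)
          have h3 := norm_sub_le ((y * (α (j + 2) (r + 1) / G (j + 2)) : ℝ) : UnitAddCircle)
            ((y * (β (j + 2) (r + 1) / G (j + 2)) : ℝ) : UnitAddCircle)
          rw [← AddCircle.coe_sub] at h3
          rw [smul_coe, show ((2 ^ r : ℤ) : ℝ) * (y * (1 / G (j + 2))) =
            y * (α (j + 2) (r + 1) / G (j + 2)) - y * (β (j + 2) (r + 1) / G (j + 2)) by
              rw [e3]; push_cast; ring]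
          linarith [key c y c1.1.1 hy.1 n _ _ hn, key d y d1.1.1 hy.2 m _ _ hm]
        rw [pow_succ] at h2
        exact h2.trans_eq (by ring)
    rw [zmultiplesHom_apply, smul_coe]
    exact h1.trans_eq (by norm_num)
  · rintro ⟨k, n, h⟩
    obtain ⟨j, hj⟩ := c2 n
    obtain ⟨w, hw⟩ := hj.trans (g3 j 1).1
    rw [zmultiplesHom_apply, one_smul] at h
    have h0 : (0 : ℝ) < c n := by exact_mod_cast (c1.1.2 n).1
    have h1 : ((G (j + 1) * ∑' j, 1 / (G (j + 2) : ℝ) : ℝ) : UnitAddCircle) = 0 := by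
      rw [← nsmul_eq_mul, AddCircle.coe_nsmul, h, ← AddCircle.coe_nsmul]
      refine (AddCircle.coe_eq_zero_iff _).2 ⟨k * w, ?_⟩
      rw [hw]
      simp only [zsmul_eq_mul, nsmul_eq_mul]
      push_cast
      field_simp
    have h2 : ((G (j + 1) * ∑ i ∈ Finset.range j, 1 / (G (i + 2) : ℝ) : ℝ) : UnitAddCircle)
        = 0 := by
      rw [Finset.mul_sum]
      refine (QuotientAddGroup.eq_zero_iff _).2 (sum_mem fun i hi => ?_)
      obtain ⟨z, hz⟩ := (g3 (i + 2) (j + 1 - (i + 2))).1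
      rw [Nat.add_sub_cancel' (by linarith [Finset.mem_range.1 hi])] at hz
      refine ⟨z, ?_⟩
      have := g4 (i + 2)
      rw [hz]
      simp only [zsmul_eq_mul]
      push_cast
      field_simp
    rw [← sm.sum_add_tsum_nat_add j, mul_add, AddCircle.coe_add, h2, zero_add] at h1
    have h3 := (summable_nat_add_iff j).2 sm
    have h4 : 0 < (G (j + 1) : ℝ) * ∑' i, 1 / (G (i + j + 2) : ℝ) :=
      mul_pos (g4 _) (h3.tsum_pos (fun i => (one_div_pos.2 (g4 _)).le) 0 (one_div_pos.2 (g4 _)))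
    have h5 : (G (j + 1) : ℝ) * ∑' i, 1 / (G (i + j + 2) : ℝ) ≤ 1 / 4 * 2 :=
      hasSum_le (fun i => by
        have := g5 (j + 1) i
        rwa [show j + 1 + i + 1 = i + j + 2 by ring] at this) (h3.hasSum.mul_left _)
        (hasSum_geometric_two.mul_left (1 / 4))
    have h6 := nrm (r := G (j + 1) * ∑' i, 1 / (G (i + j + 2) : ℝ)) (by
      rw [abs_of_pos h4]; linarith)
    rw [h1, norm_zero, abs_of_pos h4] at h6
    exact h4.ne h6

end Pool.Agent.H.MP_4ba7b3_gt
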